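import Pool.Agent.helper73.AD.Basic

/-!
Module KD of project ad (MP_a29257_gt): convexity of the length functions and kernel of
their Hessian.
-/

namespace Pool.Agent.helper73.AD

open scoped BigOperators Topology

section calculus

variable {J : Type} [Fintype J]

theorem KD_hs_congr {f g : PS J → ℝ} {z : PS J} (h : f =ᶠ[𝓝 z] g) (x y : PS J) :
    hs f z x y = hs g z x y := by
  unfold hs
  have h1 : (fun u => fderiv ℝ f u) =ᶠ[𝓝 z] (fun u => fderiv ℝ g u) := h.fderiv
  rw [h1.fderiv_eq]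

theorem KD_diff {f : PS J → ℝ} {z : PS J} (hf : ContDiffAt ℝ 2 f z) :
    (∀ᶠ u in 𝓝 z, DifferentiableAt ℝ f u) ∧ DifferentiableAt ℝ (fun u => fderiv ℝ f u) z := by
  refine ⟨?_, ?_⟩
  · have h := hf.eventually (by simp)
    filter_upwards [h] with u hu
    exact hu.differentiableAt (by norm_num)
  · exact (hf.fderiv_right (m := 1) (by norm_num)).differentiableAt (by norm_num)

theorem KD_comp {f : PS J → ℝ} {z : PS J} (hf : ContDiffAt ℝ 2 f z) (φ φ' : ℝ → ℝ) (φ'' : ℝ)
    (h1 : ∀ t, HasDerivAt φ (φ' t) t) (h2 : HasDerivAt φ' φ'' (f z)) (x : PS J) :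
    fderiv ℝ (fun u => φ (f u)) z x = φ' (f z) * fderiv ℝ f z x ∧
    hs (fun u => φ (f u)) z x x
      = φ'' * (fderiv ℝ f z x) ^ 2 + φ' (f z) * hs f z x x := by
  obtain ⟨hd, hdd⟩ := KD_diff hf
  have hev : (fun u => fderiv ℝ (fun v => φ (f v)) u) =ᶠ[𝓝 z]
      (fun u => φ' (f u) • fderiv ℝ f u) := by
    filter_upwards [hd] with u hu
    exact ((h1 (f u)).comp_hasFDerivAt u hu.hasFDerivAt).fderiv
  constructor
  · have := hev.self_of_nhds
    simp only at this
    rw [this]
    simp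
  · have hc : HasFDerivAt (fun u => φ' (f u)) (φ'' • fderiv ℝ f z) z :=
      h2.comp_hasFDerivAt z hd.self_of_nhds.hasFDerivAt
    have hs1 : HasFDerivAt (fun u => φ' (f u) • fderiv ℝ f u)
        (φ' (f z) • fderiv ℝ (fun u => fderiv ℝ f u) z
          + (φ'' • fderiv ℝ f z).smulRight (fderiv ℝ f z)) z := hc.smul hdd.hasFDerivAt
    unfold hs
    rw [hev.fderiv_eq, hs1.fderiv]
    simp only [_root_.add_apply, _root_.smul_apply,
      ContinuousLinearMap.smulRight_apply, smul_eq_mul]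
    ring

theorem KD_sum {ι : Type} (s : Finset ι) (f : ι → PS J → ℝ) (z : PS J)
    (hf : ∀ i ∈ s, ContDiffAt ℝ 2 (f i) z) (x : PS J) :
    fderiv ℝ (fun u => ∑ i ∈ s, f i u) z x = ∑ i ∈ s, fderiv ℝ (f i) z x ∧
    hs (fun u => ∑ i ∈ s, f i u) z x x = ∑ i ∈ s, hs (f i) z x x := by
  have hd : ∀ᶠ u in 𝓝 z, ∀ i ∈ s, DifferentiableAt ℝ (f i) u := by
    rw [Filter.eventually_all_finset]
    intro i hi
    exact (KD_diff (hf i hi)).1
  have hev : (fun u => fderiv ℝ (fun v => ∑ i ∈ s, f i v) u) =ᶠ[𝓝 z]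
      (fun u => ∑ i ∈ s, fderiv ℝ (f i) u) := by
    filter_upwards [hd] with u hu
    exact fderiv_fun_sum hu
  constructor
  · have := hev.self_of_nhds
    simp only at this
    rw [this]
    simp [_root_.sum_apply]
  · unfold hs
    rw [hev.fderiv_eq, fderiv_fun_sum (fun i hi => (KD_diff (hf i hi)).2)]
    simp [_root_.sum_apply]

theorem KD_add {f g : PS J → ℝ} {z : PS J} (hf : ContDiffAt ℝ 2 f z) (hg : ContDiffAt ℝ 2 g z)
    (x : PS J) :
    fderiv ℝ (fun u => f u + g u) z x = fderiv ℝ f z x + fderiv ℝ g z x ∧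
    hs (fun u => f u + g u) z x x = hs f z x x + hs g z x x := by
  have hev : (fun u => fderiv ℝ (fun v => f v + g v) u) =ᶠ[𝓝 z]
      (fun u => fderiv ℝ f u + fderiv ℝ g u) := by
    filter_upwards [(KD_diff hf).1, (KD_diff hg).1] with u hu hu'
    exact fderiv_fun_add hu hu'
  constructor
  · have := hev.self_of_nhds
    simp only at this
    rw [this]
    simp
  · unfold hs
    rw [hev.fderiv_eq, fderiv_fun_add (KD_diff hf).2 (KD_diff hg).2]
    simp

theorem KD_lin (l : PS J →L[ℝ] ℝ) (z x : PS J) :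
    fderiv ℝ (fun u => l u) z x = l x ∧ hs (fun u => l u) z x x = 0 := by
  have h : (fun u => fderiv ℝ (fun v => l v) u) = fun _ => l := by
    funext u
    exact l.fderiv
  constructor
  · rw [l.fderiv]
  · unfold hs
    rw [h]
    simp

end calculus

section words

variable {J : Type} [Fintype J]

set_option linter.unusedSectionVars false

/-- the twist parameter as a continuous linear map -/
noncomputable def KD_tL (w : Word J) (i : Fin (w.n + 1)) : PS J →L[ℝ] ℝ :=
  (ContinuousLinearMap.proj (w.j i)).comp (ContinuousLinearMap.snd ℝ (J → ℝ) (J → ℝ))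
    + w.c i • (ContinuousLinearMap.proj (w.j i)).comp (ContinuousLinearMap.fst ℝ (J → ℝ) (J → ℝ))

theorem KD_tL_apply (w : Word J) (i : Fin (w.n + 1)) (z : PS J) : KD_tL w i z = w.t i z := by
  simp [KD_tL, Word.t]

theorem KD_Mp_eq (w : Word J) (a b : Bool) (u : PS J) :
    w.Mp a b u = ∑ σ : {σ : Fin (w.n + 1) → Bool // σ 0 = a}, Real.exp (w.Lp b σ.1 u) := by
  unfold Word.Mp
  rw [← Finset.sum_filter]
  exact Finset.sum_subtype _ (fun σ => by simp) _

instance KD_nonempty (w : Word J) (a : Bool) : Nonempty {σ : Fin (w.n + 1) → Bool // σ 0 = a} :=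
  ⟨⟨fun _ => a, rfl⟩⟩

theorem KD_Mp_pos (w : Word J) (a b : Bool) (u : PS J) : 0 < w.Mp a b u := by
  rw [KD_Mp_eq]
  exact Finset.sum_pos (fun σ _ => Real.exp_pos _) Finset.univ_nonempty

/-- derivatives of Lp -/
theorem KD_Lp [DecidableEq J] (hGS : GS_stmt) (w : Word J) (b : Bool) (σ : Fin (w.n + 1) → Bool)
    (z : PS J) (hz : z ∈ Cone J) (x : PS J) :
    fderiv ℝ (w.Lp b σ) z x = ∑ i, (bs (σ i) * w.t i x / 2
      + fderiv ℝ (fun z : PS J =>
          (w.A i).g (σ i) (if i = Fin.last w.n then b else σ (i + 1)) z.1) z x) ∧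
    hs (w.Lp b σ) z x x = ∑ i, hs (fun z : PS J =>
          (w.A i).g (σ i) (if i = Fin.last w.n then b else σ (i + 1)) z.1) z x x := by
  obtain ⟨gsg, -, -, -, -⟩ := hGS J
  have hg : ∀ i : Fin (w.n + 1), ContDiffAt ℝ 2 (fun z : PS J =>
      (w.A i).g (σ i) (if i = Fin.last w.n then b else σ (i + 1)) z.1) z := fun i =>
    (gsg _ _ _).contDiffAt (Cone_mem_nhds hz)
  have hl : ∀ i : Fin (w.n + 1), ContDiffAt ℝ 2
      (fun u : PS J => ((bs (σ i) / 2) • KD_tL w i) u) z := fun i =>
    ((bs (σ i) / 2) • KD_tL w i).contDiff.contDiffAt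
  have heq : w.Lp b σ = fun u => ∑ i, (((bs (σ i) / 2) • KD_tL w i) u
      + (w.A i).g (σ i) (if i = Fin.last w.n then b else σ (i + 1)) u.1) := by
    funext u
    unfold Word.Lp
    refine Finset.sum_congr rfl fun i _ => ?_
    rw [_root_.smul_apply, KD_tL_apply, smul_eq_mul]
    ring
  rw [heq]
  obtain ⟨h1, h2⟩ := KD_sum Finset.univ (fun i (u : PS J) => ((bs (σ i) / 2) • KD_tL w i) u
      + (w.A i).g (σ i) (if i = Fin.last w.n then b else σ (i + 1)) u.1) z
      (fun i _ => (hl i).add (hg i)) x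
  rw [h1, h2]
  constructor
  · refine Finset.sum_congr rfl fun i _ => ?_
    rw [(KD_add (hl i) (hg i) x).1, (KD_lin _ z x).1, _root_.smul_apply,
      KD_tL_apply, smul_eq_mul]
    ring
  · refine Finset.sum_congr rfl fun i _ => ?_
    rw [(KD_add (hl i) (hg i) x).2, (KD_lin _ z x).2]
    ring

/-- an arc function does not change in directions that fix its three cuffs -/
theorem KD_g_const (A : Arc J) (s s' : Bool) (z x : PS J)
    (h1 : x.1 A.c1 = 0) (h2 : x.1 A.c2 = 0) (h3 : x.1 A.c3 = 0) (r : ℝ) :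
    A.g s s' (z + r • x).1 = A.g s s' z.1 := by
  cases A with
  | seam a b c =>
    simp only [Arc.c1, Arc.c2, Arc.c3] at h1 h2 h3
    cases s <;> cases s' <;> simp [Arc.g, h1, h2, h3]
  | wave a b c =>
    simp only [Arc.c1, Arc.c2, Arc.c3] at h1 h2 h3
    cases s <;> cases s' <;> simp [Arc.g, h1, h2, h3]

theorem KD_fderiv_const {f : PS J → ℝ} {z x : PS J} (hf : DifferentiableAt ℝ f z)
    (h : ∀ r : ℝ, f (z + r • x) = f z) : fderiv ℝ f z x = 0 := by
  have h1 : HasDerivAt (fun r : ℝ => z + r • x) x 0 := by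
    simpa using ((hasDerivAt_id (0 : ℝ)).smul_const x).const_add z
  have h2 : HasDerivAt (fun r : ℝ => f (z + r • x)) (fderiv ℝ f z x) 0 := by
    have hf' : HasFDerivAt f (fderiv ℝ f z) (z + (0 : ℝ) • x) := by
      simpa using hf.hasFDerivAt
    exact hf'.comp_hasDerivAt (0 : ℝ) h1
  have h3 : (fun r : ℝ => f (z + r • x)) = fun _ => f z := funext h
  rw [h3] at h2
  exact h2.unique (hasDerivAt_const (0 : ℝ) (f z))

end words

/-- KD: convexity of the length functions and kernel of their Hessian -/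
theorem KD_of (hGS : GS_stmt) (hCV : CV_stmt) (hKB : KB_stmt) (hKC : KC_stmt) (hTD : TD_stmt)
    (hBF : BF_stmt) : KD_stmt := by
  intro J _ _ w z hz x
  have gsg := (hGS J).1
  have gsLp := (hGS J).2.2.1
  have gsH := (hGS J).2.2.2.2
  have hH : ContDiffAt ℝ 2 w.H z :=
    (gsH w (fun z hz => (hBF J w z hz).1)).contDiffAt (Cone_mem_nhds hz)
  have hLp : ∀ (b : Bool) (σ : Fin (w.n + 1) → Bool), ContDiffAt ℝ 2 (w.Lp b σ) z :=
    fun b σ => (gsLp w b σ).contDiffAt (Cone_mem_nhds hz)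
  have hcone : ∀ᶠ u in 𝓝 z, u ∈ Cone J := Cone_mem_nhds hz
  -- the functions A a b = log Mp a b
  set G : Bool → Bool → PS J → ℝ := fun a b u =>
    Real.log (∑ σ : {σ : Fin (w.n + 1) → Bool // σ 0 = a}, Real.exp (w.Lp b σ.1 u)) with hG
  have hpos : ∀ a b u, 0 < ∑ σ : {σ : Fin (w.n + 1) → Bool // σ 0 = a},
      Real.exp (w.Lp b σ.1 u) := fun a b u => by
    rw [← KD_Mp_eq]; exact KD_Mp_pos w a b u
  have hGe : ∀ a b u, Real.exp (G a b u) = w.Mp a b u := fun a b u => by
    rw [KD_Mp_eq]; exact Real.exp_log (hpos a b u)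
  have hGc : ∀ a b, ContDiffAt ℝ 2 (G a b) z := fun a b => by
    refine ContDiffAt.log ?_ (hpos a b z).ne'
    exact ContDiffAt.sum fun σ _ => (hLp b σ.1).exp
  have hsg : ∀ (i : Fin (w.n + 1)) (s s' : Bool),
      0 ≤ hs (fun z : PS J => (w.A i).g s s' z.1) z x x := fun i s s' =>
    (hCV J (w.A i) z hz x).1 s s'
  have hsLp : ∀ b σ, 0 ≤ hs (w.Lp b σ) z x x := fun b σ => by
    rw [(KD_Lp hGS w b σ z hz x).2]
    exact Finset.sum_nonneg fun i _ => hsg i _ _
  -- KB for G
  have hKG : ∀ a b, hs (G a b) z x x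
      = (∑ σ : {σ : Fin (w.n + 1) → Bool // σ 0 = a},
          Real.exp (w.Lp b σ.1 z) * hs (w.Lp b σ.1) z x x) /
          (∑ σ : {σ : Fin (w.n + 1) → Bool // σ 0 = a}, Real.exp (w.Lp b σ.1 z))
      + (∑ σ : {σ : Fin (w.n + 1) → Bool // σ 0 = a},
          ∑ σ' : {σ : Fin (w.n + 1) → Bool // σ 0 = a},
          Real.exp (w.Lp b σ.1 z) * Real.exp (w.Lp b σ'.1 z)
          * (fderiv ℝ (w.Lp b σ.1) z x - fderiv ℝ (w.Lp b σ'.1) z x) ^ 2) /
          (2 * (∑ σ : {σ : Fin (w.n + 1) → Bool // σ 0 = a}, Real.exp (w.Lp b σ.1 z)) ^ 2) :=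
    fun a b => hKB J {σ : Fin (w.n + 1) → Bool // σ 0 = a} (fun σ => w.Lp b σ.1) z
      (fun σ => hLp b σ.1) x
  have ht1 : ∀ a b, 0 ≤ ∑ σ : {σ : Fin (w.n + 1) → Bool // σ 0 = a},
      Real.exp (w.Lp b σ.1 z) * hs (w.Lp b σ.1) z x x := fun a b =>
    Finset.sum_nonneg fun σ _ => mul_nonneg (Real.exp_pos _).le (hsLp b _)
  have ht2 : ∀ a b, 0 ≤ ∑ σ : {σ : Fin (w.n + 1) → Bool // σ 0 = a},
      ∑ σ' : {σ : Fin (w.n + 1) → Bool // σ 0 = a},
      Real.exp (w.Lp b σ.1 z) * Real.exp (w.Lp b σ'.1 z)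
          * (fderiv ℝ (w.Lp b σ.1) z x - fderiv ℝ (w.Lp b σ'.1) z x) ^ 2 := fun a b =>
    Finset.sum_nonneg fun σ _ => Finset.sum_nonneg fun σ' _ => by positivity
  have hG2 : ∀ a b, 0 ≤ hs (G a b) z x x := fun a b => by
    rw [hKG]
    have h1 := ht1 a b
    have h2 := ht2 a b
    have h3 := hpos a b z
    positivity
  -- exponentials of functions
  have hexp : ∀ f : PS J → ℝ, ContDiffAt ℝ 2 f z →
      fderiv ℝ (fun u => Real.exp (f u)) z x = Real.exp (f z) * fderiv ℝ f z x ∧
      hs (fun u => Real.exp (f u)) z x x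
        = Real.exp (f z) * ((fderiv ℝ f z x) ^ 2 + hs f z x x) := by
    intro f hf
    obtain ⟨h1, h2⟩ := KD_comp hf Real.exp Real.exp (Real.exp (f z)) Real.hasDerivAt_exp
      (Real.hasDerivAt_exp _) x
    refine ⟨h1, ?_⟩
    rw [h2]; ring
  -- first identity
  have id1 : (fun u => Real.exp (G true true u + G false false u)) =ᶠ[𝓝 z]
      (fun u => (fun _ => (1 : ℝ)) u + Real.exp (G true false u + G false true u)) := by
    filter_upwards [hcone] with u hu
    rw [Real.exp_add, Real.exp_add, hGe, hGe, hGe, hGe]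
    have := (hTD J w u hu).1
    linarith
  have hone : ContDiffAt ℝ 2 (fun _ : PS J => (1 : ℝ)) z := contDiffAt_const
  have hone' : fderiv ℝ (fun _ : PS J => (1 : ℝ)) z x = 0 ∧
      hs (fun _ : PS J => (1 : ℝ)) z x x = 0 := by
    constructor
    · simp
    · unfold hs; simp
  have hGG1 : ContDiffAt ℝ 2 (fun u => G true true u + G false false u) z :=
    (hGc true true).add (hGc false false)
  have hGG2 : ContDiffAt ℝ 2 (fun u => G true false u + G false true u) z :=
    (hGc true false).add (hGc false true)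
  have sumGG1 := KD_add (hGc true true) (hGc false false) x
  have sumGG2 := KD_add (hGc true false) (hGc false true) x
  have e1 : Real.exp (G true true z + G false false z)
      = 1 + Real.exp (G true false z + G false true z) := id1.self_of_nhds
  have e2 : Real.exp (G true true z + G false false z)
        * (fderiv ℝ (G true true) z x + fderiv ℝ (G false false) z x)
      = Real.exp (G true false z + G false true z)
        * (fderiv ℝ (G true false) z x + fderiv ℝ (G false true) z x) := by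
    have h := congrArg (fun l : PS J →L[ℝ] ℝ => l x) id1.fderiv_eq
    simp only at h
    rw [(hexp _ hGG1).1, (KD_add hone hGG2.exp x).1, hone'.1, (hexp _ hGG2).1, sumGG1.1,
      sumGG2.1] at h
    linarith
  have e3 : Real.exp (G true true z + G false false z)
        * ((fderiv ℝ (G true true) z x + fderiv ℝ (G false false) z x) ^ 2
          + (hs (G true true) z x x + hs (G false false) z x x))
      = Real.exp (G true false z + G false true z)
        * ((fderiv ℝ (G true false) z x + fderiv ℝ (G false true) z x) ^ 2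
          + (hs (G true false) z x x + hs (G false true) z x x)) := by
    have h := KD_hs_congr id1 x x
    rw [(hexp _ hGG1).2, (KD_add hone hGG2.exp x).2, hone'.2, (hexp _ hGG2).2, sumGG1.1,
      sumGG2.1, sumGG1.2, sumGG2.2] at h
    linarith
  -- second identity
  have id2 : (fun u => 2 * Real.cosh (w.H u / 2)) =ᶠ[𝓝 z]
      (fun u => Real.exp (G true true u) + Real.exp (G false false u)) := by
    filter_upwards [hcone] with u hu
    rw [hGe, hGe, (hBF J w u hu).2.2.1]
    exact (hTD J w u hu).2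
  have hcomp := KD_comp hH (fun t => 2 * Real.cosh (t / 2)) (fun t => Real.sinh (t / 2))
    (Real.cosh (w.H z / 2) / 2)
    (fun t => by
      have h := ((Real.hasDerivAt_cosh (t / 2)).comp t ((hasDerivAt_id t).div_const 2)).const_mul
        (2 : ℝ)
      refine h.congr_deriv ?_
      ring)
    (by
      have h := (Real.hasDerivAt_sinh (w.H z / 2)).comp (w.H z)
        ((hasDerivAt_id (w.H z)).div_const 2)
      refine h.congr_deriv ?_
      ring) x
  have e4 : 2 * Real.cosh (w.H z / 2) = Real.exp (G true true z) + Real.exp (G false false z) :=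
    id2.self_of_nhds
  have e5 : Real.sinh (w.H z / 2) * fderiv ℝ w.H z x
      = Real.exp (G true true z) * fderiv ℝ (G true true) z x
        + Real.exp (G false false z) * fderiv ℝ (G false false) z x := by
    have h := congrArg (fun l : PS J →L[ℝ] ℝ => l x) id2.fderiv_eq
    rw [hcomp.1, (KD_add (hGc true true).exp (hGc false false).exp x).1,
      (hexp _ (hGc true true)).1, (hexp _ (hGc false false)).1] at h
    exact h
  have e6 : Real.cosh (w.H z / 2) * (fderiv ℝ w.H z x) ^ 2 / 2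
        + Real.sinh (w.H z / 2) * hs w.H z x x
      = Real.exp (G true true z) * ((fderiv ℝ (G true true) z x) ^ 2 + hs (G true true) z x x)
        + Real.exp (G false false z)
          * ((fderiv ℝ (G false false) z x) ^ 2 + hs (G false false) z x x) := by
    have h := KD_hs_congr id2 x x
    rw [hcomp.2, (KD_add (hGc true true).exp (hGc false false).exp x).2,
      (hexp _ (hGc true true)).2, (hexp _ (hGc false false)).2] at h
    linarith
  have hmain := hKC (G true true z) (G false false z) (G true false z + G false true z) (w.H z)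
    (fderiv ℝ (G true true) z x) (fderiv ℝ (G false false) z x)
    (fderiv ℝ (G true false) z x + fderiv ℝ (G false true) z x) (fderiv ℝ w.H z x)
    (hs (G true true) z x x) (hs (G false false) z x x)
    (hs (G true false) z x x + hs (G false true) z x x) (hs w.H z x x)
    (hBF J w z hz).2.1 e1 e2 e3 e4 e5 e6 (hG2 _ _) (hG2 _ _) (add_nonneg (hG2 _ _) (hG2 _ _))
  refine ⟨hmain.1, fun h0 => ?_⟩
  obtain ⟨ha2, hd2, ha1, hd1⟩ := hmain.2 h0
  -- the diagonal case
  have key : ∀ a : Bool, hs (G a a) z x x = 0 → fderiv ℝ (G a a) z x = 0 →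
      ∀ σ : Fin (w.n + 1) → Bool, σ 0 = a →
        hs (w.Lp a σ) z x x = 0 ∧ fderiv ℝ (w.Lp a σ) z x = 0 := by
    intro a h2 h1 σ hσ
    have h3 := hpos a a z
    have hA := ht1 a a
    have hB := ht2 a a
    rw [hKG] at h2
    have hA' : (∑ σ : {σ : Fin (w.n + 1) → Bool // σ 0 = a},
          Real.exp (w.Lp a σ.1 z) * hs (w.Lp a σ.1) z x x) /
          (∑ σ : {σ : Fin (w.n + 1) → Bool // σ 0 = a}, Real.exp (w.Lp a σ.1 z)) = 0 := by
      refine le_antisymm ?_ (div_nonneg hA h3.le)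
      have : 0 ≤ (∑ σ : {σ : Fin (w.n + 1) → Bool // σ 0 = a},
          ∑ σ' : {σ : Fin (w.n + 1) → Bool // σ 0 = a},
          Real.exp (w.Lp a σ.1 z) * Real.exp (w.Lp a σ'.1 z)
          * (fderiv ℝ (w.Lp a σ.1) z x - fderiv ℝ (w.Lp a σ'.1) z x) ^ 2) /
          (2 * (∑ σ : {σ : Fin (w.n + 1) → Bool // σ 0 = a}, Real.exp (w.Lp a σ.1 z)) ^ 2) :=
        div_nonneg hB (by positivity)
      linarith
    have hB' : (∑ σ : {σ : Fin (w.n + 1) → Bool // σ 0 = a},
          ∑ σ' : {σ : Fin (w.n + 1) → Bool // σ 0 = a},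
          Real.exp (w.Lp a σ.1 z) * Real.exp (w.Lp a σ'.1 z)
          * (fderiv ℝ (w.Lp a σ.1) z x - fderiv ℝ (w.Lp a σ'.1) z x) ^ 2) /
          (2 * (∑ σ : {σ : Fin (w.n + 1) → Bool // σ 0 = a}, Real.exp (w.Lp a σ.1 z)) ^ 2) = 0 := by
      rw [hA'] at h2
      linarith
    have hA'' := (div_eq_zero_iff.mp hA').resolve_right h3.ne'
    have hB'' := (div_eq_zero_iff.mp hB').resolve_right (by positivity)
    have hs0 : ∀ τ : {σ : Fin (w.n + 1) → Bool // σ 0 = a}, hs (w.Lp a τ.1) z x x = 0 := by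
      intro τ
      have := (Finset.sum_eq_zero_iff_of_nonneg
        (fun σ _ => mul_nonneg (Real.exp_pos _).le (hsLp a _))).mp hA'' τ (Finset.mem_univ _)
      exact (mul_eq_zero.mp this).resolve_left (Real.exp_pos _).ne'
    have heq : ∀ τ τ' : {σ : Fin (w.n + 1) → Bool // σ 0 = a},
        fderiv ℝ (w.Lp a τ.1) z x = fderiv ℝ (w.Lp a τ'.1) z x := by
      intro τ τ'
      have h4 := (Finset.sum_eq_zero_iff_of_nonneg
        (fun σ _ => Finset.sum_nonneg fun σ' _ => by positivity)).mp hB'' τ (Finset.mem_univ _)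
      have h5 := (Finset.sum_eq_zero_iff_of_nonneg
        (fun σ' _ => by positivity)).mp h4 τ' (Finset.mem_univ _)
      have h6 : (fderiv ℝ (w.Lp a τ.1) z x - fderiv ℝ (w.Lp a τ'.1) z x) ^ 2 = 0 :=
        (mul_eq_zero.mp h5).resolve_left (by positivity)
      have h7 := pow_eq_zero_iff (two_ne_zero) |>.mp h6
      linarith
    refine ⟨hs0 ⟨σ, hσ⟩, ?_⟩
    -- first derivative of exp G
    have h8 : (fun u => Real.exp (G a a u)) =ᶠ[𝓝 z]
        (fun u => ∑ τ : {σ : Fin (w.n + 1) → Bool // σ 0 = a}, Real.exp (w.Lp a τ.1 u)) :=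
      Filter.Eventually.of_forall fun u => Real.exp_log (hpos a a u)
    have h9 := congrArg (fun l : PS J →L[ℝ] ℝ => l x) h8.fderiv_eq
    rw [(hexp _ (hGc a a)).1, h1, mul_zero,
      (KD_sum Finset.univ (fun (τ : {σ : Fin (w.n + 1) → Bool // σ 0 = a}) (u : PS J) =>
        Real.exp (w.Lp a τ.1 u)) z (fun τ _ => (hLp a τ.1).exp) x).1] at h9
    have h10 : ∀ τ : {σ : Fin (w.n + 1) → Bool // σ 0 = a},
        fderiv ℝ (fun u : PS J => Real.exp (w.Lp a τ.1 u)) z x
          = Real.exp (w.Lp a τ.1 z) * fderiv ℝ (w.Lp a σ) z x := by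
      intro τ
      rw [(hexp _ (hLp a τ.1)).1, heq τ ⟨σ, hσ⟩]
    rw [Finset.sum_congr rfl (fun τ _ => h10 τ), ← Finset.sum_mul] at h9
    exact (mul_eq_zero.mp h9.symm).resolve_left h3.ne'
  have keyt := key true ha2 ha1
  have keyf := key false hd2 hd1
  -- cuffs
  have hcuff : ∀ i, x.1 (w.A i).c1 = 0 ∧ x.1 (w.A i).c2 = 0 ∧ x.1 (w.A i).c3 = 0 := by
    intro i
    have h1 := (keyt (fun _ => true) rfl).1
    rw [(KD_Lp hGS w true (fun _ => true) z hz x).2] at h1
    have h2 := (Finset.sum_eq_zero_iff_of_nonneg (fun i _ => hsg i _ _)).mp h1 i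
      (Finset.mem_univ _)
    have h3 : hs (fun z : PS J => (w.A i).g true true z.1) z x x = 0 := by
      simpa using h2
    exact (hCV J (w.A i) z hz x).2 h3
  have hg0 : ∀ i s s', fderiv ℝ (fun z : PS J => (w.A i).g s s' z.1) z x = 0 := by
    intro i s s'
    obtain ⟨h1, h2, h3⟩ := hcuff i
    refine KD_fderiv_const ?_ (fun r => KD_g_const (w.A i) s s' z x h1 h2 h3 r)
    exact ((gsg (w.A i) s s').contDiffAt (Cone_mem_nhds hz)).differentiableAt (by norm_num)
  have hall : ∀ σ : Fin (w.n + 1) → Bool, ∑ i, bs (σ i) * w.t i x / 2 = 0 := by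
    intro σ
    have h1 : fderiv ℝ (w.Lp (σ 0) σ) z x = 0 := by
      cases h : σ 0 with
      | true => exact (keyt σ h).2
      | false => exact (keyf σ h).2
    rw [(KD_Lp hGS w (σ 0) σ z hz x).1] at h1
    simpa [hg0] using h1
  have hsrc : ∀ i, x.1 (w.j i) = 0 := by
    intro i
    have h1 := (hcuff i).1
    rw [← w.src_eq i]
    cases h : w.A i with
    | seam a b c => rw [h] at h1; simpa [Arc.src, Arc.c1] using h1
    | wave a b c => rw [h] at h1; simpa [Arc.src, Arc.c1] using h1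
  intro i
  refine ⟨(hcuff i).1, (hcuff i).2.1, (hcuff i).2.2, ?_⟩
  have h1 := hall (fun _ => true)
  have h2 := hall (Function.update (fun _ => true) i false)
  have h3 : ∑ k, (bs ((fun _ => true : Fin (w.n + 1) → Bool) k) * w.t k x / 2
      - bs ((Function.update (fun _ => true) i false : Fin (w.n + 1) → Bool) k) * w.t k x / 2)
      = w.t i x := by
    rw [Finset.sum_eq_single i]
    · simp [bs]
      ring
    · intro k _ hk
      simp [Function.update_of_ne hk]
    · intro h; exact absurd (Finset.mem_univ _) h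
  rw [Finset.sum_sub_distrib, h1, h2] at h3
  have h4 : w.t i x = x.2 (w.j i) := by
    unfold Word.t
    rw [hsrc i]; ring
  linarith

end Pool.Agent.helper73.AD
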